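import Pool.Agent.Run7.h651.G.Lq

/-!
Piece LH.
-/

set_option autoImplicit false

noncomputable section

namespace Run7.h651.G

open Run7.h157 Run7.h157.G
open Filter Topology Module
open scoped ENNReal NNReal

/-- Auerbach bases -/
theorem auerbach (V : Type*) [NormedAddCommGroup V] [NormedSpace ℝ V] [FiniteDimensional ℝ V] :
    ∃ b : Basis (Fin (finrank ℝ V)) ℝ V, (∀ j, ‖b j‖ ≤ 1) ∧ ∀ x j, |b.repr x j| ≤ ‖x‖ := by
  have : ProperSpace V := FiniteDimensional.proper_real V
  set d := finrank ℝ V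
  set b0 : Basis (Fin d) ℝ V := finBasis ℝ V
  have hcont : Continuous (fun v : Fin d → V => |b0.det v|) := by
    apply Continuous.abs
    show Continuous (fun v : Fin d → V => b0.det v)
    have h0 : (fun v : Fin d → V => b0.det v) = fun v => Matrix.det (b0.toMatrix v) := by
      funext v
      exact b0.det_apply v
    rw [h0]
    apply Continuous.matrix_det
    refine continuous_matrix (fun i j => ?_)
    have h1 : Continuous (b0.coord i) := LinearMap.continuous_of_finiteDimensional _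
    exact h1.comp (continuous_apply j)
  set K : Set (Fin d → V) := Set.pi Set.univ (fun _ => Metric.closedBall 0 1) with hK
  have hKc : IsCompact K := isCompact_univ_pi (fun _ => isCompact_closedBall 0 1)
  have hKn : K.Nonempty := ⟨0, fun j _ => by simp⟩
  obtain ⟨g, hgK, hg⟩ := hKc.exists_isMaxOn hKn hcont.continuousOn
  have hgn : ∀ j, ‖g j‖ ≤ 1 := fun j => by simpa using hgK j (Set.mem_univ j)
  have hmax : ∀ v : Fin d → V, (∀ j, ‖v j‖ ≤ 1) → |b0.det v| ≤ |b0.det g| := by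
    intro v hv
    exact hg (show v ∈ K from fun j _ => by simpa using hv j)
  have hpos : 0 < |b0.det g| := by
    have h1 : ∀ j, ‖b0 j‖ ≠ 0 := fun j => norm_ne_zero_iff.mpr (b0.ne_zero j)
    have h2 := hmax (fun j => ‖b0 j‖⁻¹ • b0 j) (fun j => by
      rw [norm_smul, norm_inv, norm_norm, inv_mul_cancel₀ (h1 j)])
    have h3 : b0.det (fun j => ‖b0 j‖⁻¹ • b0 j) = (∏ j, ‖b0 j‖⁻¹) • b0.det b0 :=
      b0.det.toMultilinearMap.map_smul_univ _ _
    rw [h3, b0.det_self, smul_eq_mul, mul_one] at h2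
    refine lt_of_lt_of_le ?_ h2
    apply abs_pos.mpr
    apply Finset.prod_ne_zero_iff.mpr
    intro j _
    exact inv_ne_zero (h1 j)
  have hunit : IsUnit (b0.det g) := isUnit_iff_ne_zero.mpr (abs_pos.mp hpos)
  obtain ⟨hli, hsp⟩ := (Module.Basis.is_basis_iff_det b0).mpr hunit
  set b := Basis.mk hli hsp.ge with hb
  have hbg : ∀ j, b j = g j := fun j => by rw [hb, Basis.mk_apply]
  have hcram : ∀ x j, b0.det (Function.update g j x) = b.repr x j * b0.det g := by
    intro x j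
    have h1 : x = ∑ i, b.repr x i • g i := by
      conv_lhs => rw [← b.sum_repr x]
      apply Finset.sum_congr rfl
      intro i _
      rw [hbg]
    conv_lhs => rw [h1]
    rw [AlternatingMap.map_update_sum, Finset.sum_eq_single j]
    · rw [AlternatingMap.map_update_smul, Function.update_eq_self, smul_eq_mul]
    · intro i _ hij
      rw [AlternatingMap.map_update_smul, AlternatingMap.map_update_self _ _ (Ne.symm hij),
        smul_zero]
    · intro hc; exact absurd (Finset.mem_univ _) hc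
  have hone : ∀ x, ‖x‖ ≤ 1 → ∀ j, |b.repr x j| ≤ 1 := by
    intro x hx j
    have h1 := hmax (Function.update g j x) (fun i => by
      by_cases hi : i = j
      · subst hi; rw [Function.update_self]; exact hx
      · rw [Function.update_of_ne hi]; exact hgn i)
    rw [hcram, abs_mul] at h1
    exact le_of_mul_le_mul_right (by rw [one_mul]; exact h1) hpos
  refine ⟨b, fun j => by rw [hbg]; exact hgn j, ?_⟩
  intro x j
  by_cases hx : x = 0
  · rw [hx]; simp
  · have hx0 : 0 < ‖x‖ := norm_pos_iff.mpr hx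
    have h1 := hone (‖x‖⁻¹ • x) (by rw [norm_smul, norm_inv, norm_norm, inv_mul_cancel₀ hx0.ne']) j
    rw [map_smul, Finsupp.smul_apply, smul_eq_mul, abs_mul, abs_inv, abs_norm] at h1
    calc |b.repr x j| = ‖x‖ * (‖x‖⁻¹ * |b.repr x j|) := by
          rw [← mul_assoc, mul_inv_cancel₀ hx0.ne', one_mul]
      _ ≤ ‖x‖ * 1 := mul_le_mul_of_nonneg_left h1 hx0.le
      _ = ‖x‖ := mul_one _

section

variable {ι : Type} [Fintype ι]

/-- the dominating function -/
theorem exists_phi (k : ℕ) (q : ℝ) (hq : 2 ≤ q) (δ : (Fin k → ℝ) →ₗ[ℝ] (ι → ℝ)) :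
    ∃ φ : ι → ℝ, (∀ i, 0 ≤ φ i) ∧ lq q φ ≤ k ∧ ∀ x ∈ LinearMap.range δ, ∀ i,
      |x i| ≤ lq q x * φ i := by
  have hq1 : (1 : ℝ≥0∞) ≤ ENNReal.ofReal q := by
    rw [← ENNReal.ofReal_one]
    exact ENNReal.ofReal_le_ofReal (by linarith)
  have : Fact ((1 : ℝ≥0∞) ≤ ENNReal.ofReal q) := ⟨hq1⟩
  have hqr : (ENNReal.ofReal q).toReal = q := ENNReal.toReal_ofReal (by linarith)
  have hnorm : ∀ v : PiLp (ENNReal.ofReal q) (fun _ : ι => ℝ), ‖v‖ = lq q (WithLp.ofLp v) := by
    intro v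
    rw [PiLp.norm_eq_sum (by rw [hqr]; linarith), hqr]
    rfl
  set δ' : (Fin k → ℝ) →ₗ[ℝ] PiLp (ENNReal.ofReal q) (fun _ : ι => ℝ) :=
    (WithLp.linearEquiv (ENNReal.ofReal q) ℝ (ι → ℝ)).symm.toLinearMap.comp δ with hδ'
  set V := LinearMap.range δ' with hV
  obtain ⟨b, hb1, hb2⟩ := auerbach V
  have hd : (finrank ℝ V) ≤ k := by
    have h1 := LinearMap.finrank_range_le δ'
    rwa [finrank_fin_fun] at h1
  refine ⟨∑ j, fun i => |WithLp.ofLp (b j : PiLp (ENNReal.ofReal q) (fun _ : ι => ℝ)) i|,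
    ?_, ?_, ?_⟩
  · intro i
    rw [Finset.sum_apply]
    exact Finset.sum_nonneg (fun _ _ => abs_nonneg _)
  · refine (lq_sum_le (by linarith) _ _).trans ?_
    calc ∑ j, lq q (fun i => |WithLp.ofLp (b j : PiLp (ENNReal.ofReal q) (fun _ : ι => ℝ)) i|)
        ≤ ∑ j : Fin (finrank ℝ V), (1 : ℝ) := by
          apply Finset.sum_le_sum
          intro j _
          refine le_trans (le_of_eq ?_) (hb1 j)
          rw [Submodule.coe_norm, hnorm]
          unfold lq
          simp only [abs_abs]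
      _ = finrank ℝ V := by simp
      _ ≤ k := by exact_mod_cast hd
  · rintro x ⟨t, rfl⟩ i
    set y : V := ⟨δ' t, ⟨t, rfl⟩⟩ with hy
    have h1 : ‖y‖ = lq q (δ t) := by
      rw [Submodule.coe_norm, hnorm]
      rfl
    have h2 : δ t i = ∑ j, b.repr y j *
        WithLp.ofLp (b j : PiLp (ENNReal.ofReal q) (fun _ : ι => ℝ)) i := by
      have h3 : (y : PiLp (ENNReal.ofReal q) (fun _ : ι => ℝ)) =
          ∑ j, b.repr y j • (b j : PiLp (ENNReal.ofReal q) (fun _ : ι => ℝ)) := by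
        have := congrArg (Subtype.val) (b.sum_repr y)
        rw [← this]
        simp only [Submodule.coe_sum, Submodule.coe_smul]
      have h4 := congrArg (fun v : PiLp (ENNReal.ofReal q) (fun _ : ι => ℝ) =>
        (WithLp.linearEquiv (ENNReal.ofReal q) ℝ (ι → ℝ)) v i) h3
      simp only [map_sum, map_smul, Finset.sum_apply, Pi.smul_apply, smul_eq_mul] at h4
      exact h4
    rw [h2, Finset.sum_apply, Finset.mul_sum]
    refine (Finset.abs_sum_le_sum_abs _ _).trans (Finset.sum_le_sum (fun j _ => ?_))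
    rw [abs_mul, ← h1]
    exact mul_le_mul_of_nonneg_right (hb2 y j) (abs_nonneg _)

/-- the weighted quadratic form -/
def Qf (q : ℝ) (φ x : ι → ℝ) : ℝ := ∑ i, x i ^ 2 * φ i ^ (q - 2)

theorem lq_le_Qf (q : ℝ) (hq : 2 ≤ q) (φ x : ι → ℝ) (hφ : ∀ i, 0 ≤ φ i)
    (h : ∀ i, |x i| ≤ lq q x * φ i) : lq q x ^ 2 ≤ Qf q φ x := by
  have hN := lq_nonneg q x
  have hQ : 0 ≤ Qf q φ x :=
    Finset.sum_nonneg (fun i _ => mul_nonneg (sq_nonneg _) (Real.rpow_nonneg (hφ i) _))
  rcases hN.eq_or_lt with h0 | hpos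
  · rw [← h0]; simpa using hQ
  · have h1 : lq q x ^ q ≤ lq q x ^ (q - 2) * Qf q φ x := by
      rw [lq_rpow (by linarith)]
      unfold Qf
      rw [Finset.mul_sum]
      apply Finset.sum_le_sum
      intro i _
      have h2 : |x i| ^ q = |x i| ^ (q - 2) * x i ^ 2 := by
        rcases (abs_nonneg (x i)).eq_or_lt with hz | hz
        · have : x i = 0 := abs_eq_zero.mp hz.symm
          rw [this, abs_zero, Real.zero_rpow (by linarith)]
          ring
        · rw [← sq_abs (x i), ← Real.rpow_natCast |x i| 2, ← Real.rpow_add hz]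
          congr 1
          push_cast
          ring
      rw [h2]
      have h3 : |x i| ^ (q - 2) ≤ lq q x ^ (q - 2) * φ i ^ (q - 2) := by
        rw [← Real.mul_rpow hN (hφ i)]
        exact Real.rpow_le_rpow (abs_nonneg _) (h i) (by linarith)
      calc |x i| ^ (q - 2) * x i ^ 2 ≤ (lq q x ^ (q - 2) * φ i ^ (q - 2)) * x i ^ 2 :=
            mul_le_mul_of_nonneg_right h3 (sq_nonneg _)
        _ = _ := by ring
    have h2 : lq q x ^ q = lq q x ^ (q - 2) * lq q x ^ 2 := by
      rw [← Real.rpow_natCast (lq q x) 2, ← Real.rpow_add hpos]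
      congr 1
      push_cast
      ring
    rw [h2] at h1
    exact le_of_mul_le_mul_left h1 (Real.rpow_pos_of_pos hpos _)

theorem Qf_le_lq (q : ℝ) (hq : 2 ≤ q) (φ x : ι → ℝ) (hφ : ∀ i, 0 ≤ φ i) :
    Qf q φ x ≤ lq q x ^ 2 * lq q φ ^ (q - 2) := by
  have hq0 : 0 < q := by linarith
  rcases hq.eq_or_lt with h0 | h0
  · subst h0
    unfold Qf
    have h1 : lq 2 x ^ 2 = ∑ i, x i ^ 2 := by
      have := lq_rpow (by norm_num : (0 : ℝ) < 2) x
      rw [Real.rpow_two] at this
      rw [this]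
      apply Finset.sum_congr rfl
      intro i _
      rw [Real.rpow_two, sq_abs]
    rw [h1]
    simp
  · have hpq : (q / 2).HolderConjugate (q / (q - 2)) := by
      rw [Real.holderConjugate_iff]
      constructor
      · rw [lt_div_iff₀ (by norm_num)]; linarith
      · field_simp
        ring
    have h1 := Real.inner_le_Lp_mul_Lq Finset.univ (fun i => x i ^ 2) (fun i => φ i ^ (q - 2)) hpq
    unfold Qf
    refine h1.trans (le_of_eq ?_)
    have h2 : ∀ i, |x i ^ 2| ^ (q / 2) = |x i| ^ q := by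
      intro i
      rw [abs_pow, ← Real.rpow_natCast |x i| 2, ← Real.rpow_mul (abs_nonneg _)]
      congr 1
      push_cast
      ring
    have h3 : ∀ i, |φ i ^ (q - 2)| ^ (q / (q - 2)) = |φ i| ^ q := by
      intro i
      rw [abs_of_nonneg (Real.rpow_nonneg (hφ i) _), ← Real.rpow_mul (hφ i), abs_of_nonneg (hφ i)]
      congr 1
      field_simp
    simp only [h2, h3]
    unfold lq
    congr 1
    · rw [← Real.rpow_natCast _ 2, ← Real.rpow_mul (by positivity)]
      congr 1
      push_cast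
      field_simp
    · rw [← Real.rpow_mul (by positivity)]
      congr 1
      field_simp

/-- the weighted space -/
def Sw (q : ℝ) (φ : ι → ℝ) : (ι → ℝ) →ₗ[ℝ] EuclideanSpace ℝ ι where
  toFun x := WithLp.toLp 2 (fun i => φ i ^ ((q - 2) / 2) * x i)
  map_add' x y := by
    ext i
    simp [mul_add]
  map_smul' c x := by
    ext i
    simp only [Pi.smul_apply, smul_eq_mul, RingHom.id_apply, PiLp.smul_apply]
    ring

theorem norm_Sw (q : ℝ) (φ x : ι → ℝ) (hφ : ∀ i, 0 ≤ φ i) : ‖Sw q φ x‖ ^ 2 = Qf q φ x := by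
  rw [EuclideanSpace.norm_sq_eq]
  unfold Qf
  apply Finset.sum_congr rfl
  intro i _
  show ‖φ i ^ ((q - 2) / 2) * x i‖ ^ 2 = _
  rw [Real.norm_eq_abs, sq_abs, mul_pow, ← Real.rpow_natCast (φ i ^ ((q - 2) / 2)) 2,
    ← Real.rpow_mul (hφ i)]
  have : (q - 2) / 2 * ((2 : ℕ) : ℝ) = q - 2 := by push_cast; ring
  rw [this]
  ring

end

theorem st_LH : St_LH := by
  intro k
  refine ⟨2 + 1 / ((k : ℝ) + 1), by
    have : 0 < 1 / ((k : ℝ) + 1) := by positivity
    linarith, ?_⟩
  intro q hq hq0 ι _ δ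
  obtain ⟨φ, hφ, hφk, hdom⟩ := exists_phi k q hq δ
  have hk4 : lq q φ ^ (q - 2) ≤ 4 := by
    have h1 : lq q φ ^ (q - 2) ≤ ((k : ℝ) + 1) ^ (q - 2) :=
      Real.rpow_le_rpow (lq_nonneg _ _) (by linarith) (by linarith)
    have h2 : ((k : ℝ) + 1) ^ (q - 2) ≤ ((k : ℝ) + 1) ^ (1 / ((k : ℝ) + 1)) :=
      Real.rpow_le_rpow_of_exponent_le (by
        have : (0 : ℝ) ≤ k := Nat.cast_nonneg k
        linarith) (by linarith)
    have h3 : ((k : ℝ) + 1) ^ (1 / ((k : ℝ) + 1)) ≤ 4 := by
      rw [one_div, Real.rpow_inv_le_iff_of_pos (by positivity) (by norm_num) (by positivity)]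
      have h4 : ((k : ℝ) + 1) ≤ (4 : ℝ) ^ (k + 1) := by
        have := one_add_mul_le_pow (a := (3 : ℝ)) (by norm_num) (k + 1)
        norm_num at this
        have hk : (0 : ℝ) ≤ k := Nat.cast_nonneg k
        linarith
      have h5 : (4 : ℝ) ^ ((k : ℝ) + 1) = (4 : ℝ) ^ (k + 1) := by
        rw [← Real.rpow_natCast]
        push_cast
        rfl
      rw [h5]
      exact h4
    linarith
  set S := Sw q φ with hS
  set T := S.comp δ with hT
  set W := LinearMap.range T with hW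
  set e := stdOrthonormalBasis ℝ W with he
  have hex : ∀ i, ∃ w, T w = (e i : EuclideanSpace ℝ ι) := fun i => (e i).2
  choose w hw using hex
  have hz : ∀ t, S (δ t) = 0 → δ t = 0 := by
    intro t ht
    have h1 := lq_le_Qf q hq φ (δ t) hφ (hdom _ ⟨t, rfl⟩)
    rw [← norm_Sw q φ _ hφ, ← hS, ht, norm_zero] at h1
    have h2 : lq q (δ t) = 0 := by
      have := lq_nonneg q (δ t)
      nlinarith
    exact eq_zero_of_lq (by linarith) h2
  set η : Fin (finrank ℝ W) → (Fin k → ℝ) →ₗ[ℝ] ℝ := fun i =>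
    (innerₗ (EuclideanSpace ℝ ι) (e i : EuclideanSpace ℝ ι)).comp T with hη
  have hsum : ∀ t, T t = ∑ i, η i t • (e i : EuclideanSpace ℝ ι) := by
    intro t
    have h1 := e.sum_repr' (⟨T t, ⟨t, rfl⟩⟩ : W)
    have h2 := congrArg Subtype.val h1
    simp only [Submodule.coe_sum, Submodule.coe_smul, Submodule.coe_inner] at h2
    exact h2.symm
  refine ⟨finrank ℝ W, η, fun i => δ (w i), fun i => ⟨w i, rfl⟩, ?_, ?_⟩
  · intro t
    have h1 : δ (t - ∑ i, η i t • w i) = 0 := by
      apply hz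
      have h2 : S (δ (t - ∑ i, η i t • w i)) = T (t - ∑ i, η i t • w i) := rfl
      rw [h2, map_sub, map_sum, sub_eq_zero]
      refine (hsum t).trans ?_
      apply Finset.sum_congr rfl
      intro i _
      rw [map_smul, hw]
    rw [map_sub, map_sum, sub_eq_zero] at h1
    rw [h1]
    apply Finset.sum_congr rfl
    intro i _
    rw [map_smul]
  · intro θ hθ t
    have h1 : ∑ i, (θ i * η i t) • δ (w i) = δ (∑ i, (θ i * η i t) • w i) := by
      rw [map_sum]
      apply Finset.sum_congr rfl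
      intro i _
      rw [map_smul]
    have h2 := lq_le_Qf q hq φ _ hφ (hdom (δ (∑ i, (θ i * η i t) • w i)) ⟨_, rfl⟩)
    have h3 := Qf_le_lq q hq φ (δ t) hφ
    rw [← norm_Sw q φ _ hφ] at h2 h3
    have e1 : Sw q φ (δ (∑ i, (θ i * η i t) • w i)) =
        ∑ i, (θ i * η i t) • (e i : EuclideanSpace ℝ ι) := by
      have : Sw q φ (δ (∑ i, (θ i * η i t) • w i)) = T (∑ i, (θ i * η i t) • w i) := rfl
      rw [this, map_sum]
      apply Finset.sum_congr rfl
      intro i _
      rw [map_smul, hw]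
    have e2 : Sw q φ (δ t) = ∑ i, η i t • (e i : EuclideanSpace ℝ ι) := hsum t
    have hon : Orthonormal ℝ (fun i => (e i : EuclideanSpace ℝ ι)) :=
      e.orthonormal.comp_linearIsometry W.subtypeₗᵢ
    have hns : ∀ c : Fin (finrank ℝ W) → ℝ,
        ‖∑ i, c i • (e i : EuclideanSpace ℝ ι)‖ ^ 2 = ∑ i, c i ^ 2 := by
      intro c
      rw [← real_inner_self_eq_norm_sq, hon.inner_sum]
      apply Finset.sum_congr rfl
      intro i _
      simp [sq]
    rw [e1, hns] at h2
    rw [e2, hns] at h3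
    have h4 : ∑ i, (θ i * η i t) ^ 2 ≤ ∑ i, η i t ^ 2 := by
      apply Finset.sum_le_sum
      intro i _
      rw [mul_pow]
      have h5 : θ i ^ 2 ≤ 1 := by
        rw [← sq_abs]
        have := hθ i
        have := abs_nonneg (θ i)
        nlinarith
      nlinarith [sq_nonneg (η i t)]
    have h6 : lq q (δ (∑ i, (θ i * η i t) • w i)) ^ 2 ≤ (2 * lq q (δ t)) ^ 2 := by
      have h7 : lq q (δ t) ^ 2 * lq q φ ^ (q - 2) ≤ lq q (δ t) ^ 2 * 4 :=
        mul_le_mul_of_nonneg_left hk4 (sq_nonneg _)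
      nlinarith
    rw [h1]
    have h8 := lq_nonneg q (δ t)
    exact le_of_sq_le_sq h6 (by positivity)

end Run7.h651.G
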