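import Pool.Agent.Run7.h651.G.Lq

/-!
Piece ZL.
-/

set_option autoImplicit false

noncomputable section

namespace Run7.h651.G

open Run7.h157 Run7.h157.G
open scoped ENNReal NNReal

theorem st_ZL : St_ZL := by
  intro k q0 hLH D κ q U hZ hκ n hq hq0 δ hδ
  set L := crd (κ n) (U n) with hL
  obtain ⟨r, η, h, h1, h2, h3⟩ := hLH (q n) hq hq0 _ (L.comp δ)
  have hw : ∀ i, ∃ w : Fin k → ℝ, L (δ w) = h i := fun i => h1 i
  choose w hw using hw
  have hz : ∀ a, L a = 0 → (∀ i ∈ a.support, κ n ≤ i ∧ i < κ (n + 1)) → a = 0 := by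
    intro a ha hs
    have h4 : zn (q n) (κ n) (U n) a = 0 := by
      rw [zn_eq, ← hL, ha, lq_zero (by linarith)]
    have h5 := hZ.definite n a h4
    ext i
    by_contra hi
    have h6 : i ∈ a.support := Finsupp.mem_support_iff.mpr hi
    exact hi (h5 i (hs i h6).1 (hs i h6).2)
  have hsum : ∀ (c : Fin r → ℝ), ∀ i ∈ (∑ j, c j • δ (w j)).support,
      κ n ≤ i ∧ i < κ (n + 1) := by
    intro c i hi
    have h4 : ∑ j, c j • δ (w j) = δ (∑ j, c j • w j) := by
      rw [map_sum]
      apply Finset.sum_congr rfl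
      intro j _
      rw [map_smul]
    rw [h4] at hi
    exact hδ _ i hi
  have hdec : ∀ t, δ t = ∑ i, η i t • δ (w i) := by
    intro t
    rw [← sub_eq_zero]
    apply hz
    · rw [map_sub, map_sum]
      have h4 := h2 t
      rw [LinearMap.comp_apply] at h4
      rw [h4, sub_eq_zero]
      apply Finset.sum_congr rfl
      intro i _
      rw [map_smul, hw]
    · intro i hi
      have h4 : δ t - ∑ i, η i t • δ (w i) = δ (t - ∑ i, η i t • w i) := by
        rw [map_sub, map_sum]
        congr 1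
        apply Finset.sum_congr rfl
        intro j _
        rw [map_smul]
      rw [h4] at hi
      exact hδ _ i hi
  refine ⟨r, η, w, hdec, ?_⟩
  intro θ hθ t
  show zn (q n) (κ n) (U n) _ ≤ 2 * zn (q n) (κ n) (U n) _
  rw [zn_eq, zn_eq, ← hL]
  have h4 := h3 θ hθ t
  rw [LinearMap.comp_apply] at h4
  have h5 : L (∑ i, (θ i * η i t) • δ (w i)) = ∑ i, (θ i * η i t) • h i := by
    rw [map_sum]
    apply Finset.sum_congr rfl
    intro i _
    rw [map_smul, hw]
  rw [h5]
  exact h4

end Run7.h651.G
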