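import Pool.Agent.Run7.h651.G.Lq

/-!
Piece ZS.
-/

set_option autoImplicit false

noncomputable section

namespace Run7.h651.G

open Run7.h157 Run7.h157.G
open scoped ENNReal NNReal

theorem exists_zone {κ : ℕ → ℕ} (hκ : StrictMono κ) (h0 : κ 0 = 0) (r : ℕ) :
    ∃ n, κ n ≤ r ∧ r < κ (n + 1) := by
  have h : ∃ n, r < κ (n + 1) := ⟨r, by have := hκ.le_apply (x := r + 1); omega⟩
  refine ⟨Nat.find h, ?_, Nat.find_spec h⟩
  rcases Nat.eq_zero_or_pos (Nat.find h) with h1 | h1
  · rw [h1, h0]; exact Nat.zero_le _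
  · have h2 := Nat.find_min h (m := Nat.find h - 1) (by omega)
    have h3 : Nat.find h - 1 + 1 = Nat.find h := by omega
    rw [h3] at h2
    omega

theorem zone_unique {κ : ℕ → ℕ} (hκ : StrictMono κ) {r n m : ℕ} (h1 : κ n ≤ r)
    (h2 : r < κ (n + 1)) (h3 : κ m ≤ r) (h4 : r < κ (m + 1)) : n = m := by
  rcases lt_trichotomy n m with h | h | h
  · have := hκ.monotone (show n + 1 ≤ m by omega)
    omega
  · exact h
  · have := hκ.monotone (show m + 1 ≤ n by omega)
    omega

/-- the place of a coordinate -/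
def pos (k0 : ℕ) {K : ℕ} : Fin K ⊕ Fin K → ℕ :=
  Sum.elim (fun u => k0 + 2 * u) (fun v => k0 + 2 * v + 1)

theorem pos_inj (k0 : ℕ) {K : ℕ} : Function.Injective (pos k0 (K := K)) := by
  rintro (u | u) (v | v) h
  · have h' : k0 + 2 * (u : ℕ) = k0 + 2 * (v : ℕ) := h
    congr 1
    exact Fin.ext (by omega)
  · have h' : k0 + 2 * (u : ℕ) = k0 + 2 * (v : ℕ) + 1 := h
    omega
  · have h' : k0 + 2 * (u : ℕ) + 1 = k0 + 2 * (v : ℕ) := h
    omega
  · have h' : k0 + 2 * (u : ℕ) + 1 = k0 + 2 * (v : ℕ) + 1 := h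
    congr 1
    exact Fin.ext (by omega)

theorem pos_mem (k0 : ℕ) {K : ℕ} (i : Fin K ⊕ Fin K) : k0 ≤ pos k0 i ∧ pos k0 i < k0 + 2 * K := by
  rcases i with u | u
  · have h' : pos k0 (Sum.inl u : Fin K ⊕ Fin K) = k0 + 2 * (u : ℕ) := rfl
    have := u.2
    omega
  · have h' : pos k0 (Sum.inr u : Fin K ⊕ Fin K) = k0 + 2 * (u : ℕ) + 1 := rfl
    have := u.2
    omega

theorem pos_surj (k0 : ℕ) {K : ℕ} (r : ℕ) (h1 : k0 ≤ r) (h2 : r < k0 + 2 * K) :
    ∃ i : Fin K ⊕ Fin K, pos k0 i = r := by
  rcases Nat.mod_two_eq_zero_or_one (r - k0) with h | h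
  · exact ⟨Sum.inl ⟨(r - k0) / 2, by omega⟩, by
      show k0 + 2 * ((r - k0) / 2) = r
      omega⟩
  · exact ⟨Sum.inr ⟨(r - k0) / 2, by omega⟩, by
      show k0 + 2 * ((r - k0) / 2) + 1 = r
      omega⟩

theorem crd_inl (k0 : ℕ) {K : ℕ} (U : Matrix (Fin K) (Fin K) ℝ) (a : ℕ →₀ ℝ) (u : Fin K) :
    crd k0 U a (Sum.inl u) = a (k0 + 2 * u) := rfl

theorem crd_inr (k0 : ℕ) {K : ℕ} (U : Matrix (Fin K) (Fin K) ℝ) (a : ℕ →₀ ℝ) (v : Fin K) :
    crd k0 U a (Sum.inr v) = U.mulVec (fun u => a (k0 + 2 * u + 1)) v := rfl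

section one

variable {k0 K : ℕ} {U : Matrix (Fin K) (Fin K) ℝ} (hU : U.transpose * U = 1)

include hU in
theorem mulVec_inj {x : Fin K → ℝ} (h : U.mulVec x = 0) : x = 0 := by
  have h1 : U.transpose.mulVec (U.mulVec x) = x := by
    rw [Matrix.mulVec_mulVec, hU, Matrix.one_mulVec]
  rw [h, Matrix.mulVec_zero] at h1
  exact h1.symm

include hU in
theorem crd_inj {a : ℕ →₀ ℝ} (h : crd k0 U a = 0) (r : ℕ) (h1 : k0 ≤ r) (h2 : r < k0 + 2 * K) :
    a r = 0 := by
  obtain ⟨i, rfl⟩ := pos_surj k0 (K := K) r h1 h2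
  rcases i with u | v
  · exact congrFun h (Sum.inl u)
  · have h3 : U.mulVec (fun u => a (k0 + 2 * u + 1)) = 0 := by
      funext v
      exact congrFun h (Sum.inr v)
    exact congrFun (mulVec_inj hU h3) v

end one

theorem zn_basis (q : ℝ) (hq : 1 ≤ q) (k0 : ℕ) {K : ℕ} (U : Matrix (Fin K) (Fin K) ℝ)
    (hb : ∀ (a : Fin K → ℝ) (j : ℕ), lq q (U.mulVec (fun u => if (u : ℕ) < j then a u else 0)) ≤
      2 * lq q (U.mulVec a)) (a : ℕ →₀ ℝ) (j : ℕ) :
    zn q k0 U (a.filter (· < j)) ≤ 2 * zn q k0 U a := by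
  have hq0 : 0 < q := by linarith
  have h1 : ∀ b : ℕ →₀ ℝ, zn q k0 U b = (lq q (fun u : Fin K => b (k0 + 2 * u)) ^ q +
      lq q (U.mulVec (fun u => b (k0 + 2 * u + 1))) ^ q) ^ (1 / q) := by
    intro b
    rw [lq_rpow hq0, lq_rpow hq0]
    rfl
  have h2 : lq q (fun u : Fin K => (a.filter (· < j)) (k0 + 2 * u)) ≤
      lq q (fun u : Fin K => a (k0 + 2 * u)) := by
    apply lq_mono hq0
    intro u
    rw [Finsupp.filter_apply]
    split_ifs
    · exact le_rfl
    · rw [abs_zero]; exact abs_nonneg _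
  have h3 : lq q (U.mulVec (fun u => (a.filter (· < j)) (k0 + 2 * u + 1))) ≤
      2 * lq q (U.mulVec (fun u => a (k0 + 2 * u + 1))) := by
    have h4 : (fun u : Fin K => (a.filter (· < j)) (k0 + 2 * u + 1)) =
        fun u : Fin K => if (u : ℕ) < (j - k0) / 2 then a (k0 + 2 * u + 1) else 0 := by
      funext u
      rw [Finsupp.filter_apply]
      have h5 : (k0 + 2 * (u : ℕ) + 1 < j) ↔ ((u : ℕ) < (j - k0) / 2) := by omega
      by_cases h6 : k0 + 2 * (u : ℕ) + 1 < j
      · rw [if_pos h6, if_pos (h5.mp h6)]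
      · rw [if_neg h6, if_neg (fun h => h6 (h5.mpr h))]
    rw [h4]
    exact hb _ _
  rw [h1, h1]
  have e1 := lq_nonneg q (fun u : Fin K => a (k0 + 2 * u))
  have e2 := lq_nonneg q (U.mulVec (fun u => a (k0 + 2 * u + 1)))
  have e3 := lq_nonneg q (fun u : Fin K => (a.filter (· < j)) (k0 + 2 * u))
  have e4 := lq_nonneg q (U.mulVec (fun u => (a.filter (· < j)) (k0 + 2 * u + 1)))
  set x := lq q (fun u : Fin K => a (k0 + 2 * u))
  set y := lq q (U.mulVec (fun u => a (k0 + 2 * u + 1)))
  set x' := lq q (fun u : Fin K => (a.filter (· < j)) (k0 + 2 * u))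
  set y' := lq q (U.mulVec (fun u => (a.filter (· < j)) (k0 + 2 * u + 1)))
  have h5 : x' ^ q + y' ^ q ≤ 2 ^ q * (x ^ q + y ^ q) := by
    have h6 : x' ^ q ≤ 2 ^ q * x ^ q := by
      rw [← Real.mul_rpow (by norm_num) e1]
      exact Real.rpow_le_rpow e3 (by linarith) hq0.le
    have h7 : y' ^ q ≤ 2 ^ q * y ^ q := by
      rw [← Real.mul_rpow (by norm_num) e2]
      exact Real.rpow_le_rpow e4 h3 hq0.le
    linarith
  calc (x' ^ q + y' ^ q) ^ (1 / q) ≤ (2 ^ q * (x ^ q + y ^ q)) ^ (1 / q) :=
        Real.rpow_le_rpow (by positivity) h5 (by positivity)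
    _ = 2 * (x ^ q + y ^ q) ^ (1 / q) := by
        rw [Real.mul_rpow (by positivity) (by positivity), ← Real.rpow_mul (by norm_num),
          mul_one_div_cancel hq0.ne', Real.rpow_one]

theorem st_ZS : St_ZS := by
  intro D κ q U h0 hκ hq hU hb
  have hm : StrictMono κ := strictMono_nat_of_lt_succ (fun n => by
    rw [hκ n]
    have : 0 < 2 ^ (2 * D n) := by positivity
    omega)
  have hq0 : ∀ n, 0 < q n := fun n => by have := hq n; linarith
  have hq1 : ∀ n, 1 ≤ q n := fun n => by have := hq n; linarith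
  have hUU : ∀ n, U n * (U n).transpose = 1 := fun n => mul_eq_one_comm.mp (hU n)
  refine ⟨?_, ?_, ?_⟩
  · refine { mono := hm, zero := h0, nonneg := ?_, add := ?_, smul := ?_, loc := ?_,
             definite := ?_, one_le := by norm_num, basis := ?_ }
    · intro n a
      show 0 ≤ zn _ _ _ _
      rw [zn_eq]; exact lq_nonneg _ _
    · intro n a b
      show zn _ _ _ _ ≤ zn _ _ _ _ + zn _ _ _ _
      rw [zn_eq, zn_eq, zn_eq, map_add]
      exact lq_add_le (hq1 n) _ _
    · intro n c a
      show zn _ _ _ _ = _ * zn _ _ _ _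
      rw [zn_eq, zn_eq, map_smul]
      exact lq_smul (hq0 n) _ _
    · intro n a b hab
      show zn _ _ _ _ = zn _ _ _ _
      rw [zn_eq, zn_eq]
      congr 1
      have h1 : ∀ i : Fin (2 ^ (2 * D n)) ⊕ Fin (2 ^ (2 * D n)), a (pos (κ n) i) =
          b (pos (κ n) i) := by
        intro i
        obtain ⟨h2, h3⟩ := pos_mem (κ n) i
        exact hab _ h2 (by rw [hκ n]; exact h3)
      funext i
      rcases i with u | v
      · exact h1 (Sum.inl u)
      · rw [crd_inr, crd_inr]
        congr 1
        funext u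
        exact h1 (Sum.inr u)
    · intro n a ha i h1 h2
      have h3 : zn (q n) (κ n) (U n) a = 0 := ha
      rw [zn_eq] at h3
      exact crd_inj (hU n) (eq_zero_of_lq (hq0 n) h3) i h1 (by rw [← hκ n]; exact h2)
    · intro n a j
      exact zn_basis (q n) (hq1 n) (κ n) (U n) (hb n) a j
  · -- the vectors `h`
    have hex : ∀ r, ∃ w : ℕ →₀ ℝ, ∀ n, κ n ≤ r → r < κ (n + 1) →
        (∀ u : Fin (2 ^ (2 * D n)), r = κ n + 2 * u → w = Finsupp.single (κ n + 2 * u) 1) ∧
        (∀ v : Fin (2 ^ (2 * D n)), r = κ n + 2 * v + 1 →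
          w = ∑ u : Fin (2 ^ (2 * D n)), Finsupp.single (κ n + 2 * (u : ℕ) + 1) (U n v u)) := by
      intro r
      obtain ⟨n0, h1, h2⟩ := exists_zone hm h0 r
      obtain ⟨i, hi⟩ := pos_surj (κ n0) (K := 2 ^ (2 * D n0)) r h1 (by rw [← hκ n0]; exact h2)
      rcases i with u | v
      · have hi' : κ n0 + 2 * (u : ℕ) = r := hi
        refine ⟨Finsupp.single r 1, ?_⟩
        intro n h3 h4
        obtain rfl := zone_unique hm h3 h4 h1 h2
        refine ⟨fun u' hu' => by rw [hu'], fun v' hv' => by omega⟩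
      · have hi' : κ n0 + 2 * (v : ℕ) + 1 = r := hi
        refine ⟨∑ u : Fin (2 ^ (2 * D n0)), Finsupp.single (κ n0 + 2 * (u : ℕ) + 1) (U n0 v u), ?_⟩
        intro n h3 h4
        obtain rfl := zone_unique hm h3 h4 h1 h2
        refine ⟨fun u' hu' => by omega, fun v' hv' => ?_⟩
        have : v' = v := Fin.ext (by omega)
        rw [this]
    choose h hh using hex
    have hsup : ∀ n r, κ n ≤ r → r < κ (n + 1) → ∀ i ∈ (h r).support,
        κ n ≤ i ∧ i < κ (n + 1) := by
      intro n r h1 h2 i hi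
      obtain ⟨h3, h4⟩ := hh r n h1 h2
      obtain ⟨j, hj⟩ := pos_surj (κ n) (K := 2 ^ (2 * D n)) r h1 (by rw [← hκ n]; exact h2)
      rcases j with u | v
      · have hj' : κ n + 2 * (u : ℕ) = r := hj
        rw [h3 u hj'.symm, hj'] at hi
        have := Finsupp.support_single_subset hi
        rw [Finset.mem_singleton] at this
        omega
      · have hj' : κ n + 2 * (v : ℕ) + 1 = r := hj
        rw [h4 v hj'.symm] at hi
        rw [Finsupp.mem_support_iff, Finsupp.finsetSum_apply] at hi
        obtain ⟨u, _, hu⟩ := Finset.exists_ne_zero_of_sum_ne_zero hi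
        rw [Finsupp.single_apply] at hu
        split_ifs at hu with he
        · have := u.2
          rw [hκ n]
          omega
        · exact absurd rfl hu
    -- coordinates of `h r`
    have hcr : ∀ n r (i : Fin (2 ^ (2 * D n)) ⊕ Fin (2 ^ (2 * D n))),
        crd (κ n) (U n) (h r) i = (Finsupp.single r (1 : ℝ)) (pos (κ n) i) := by
      intro n r i
      by_cases hr : κ n ≤ r ∧ r < κ (n + 1)
      · obtain ⟨h1, h2⟩ := hr
        obtain ⟨h3, h4⟩ := hh r n h1 h2
        obtain ⟨j, hj⟩ := pos_surj (κ n) (K := 2 ^ (2 * D n)) r h1 (by rw [← hκ n]; exact h2)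
        rcases j with u | v
        · have hj' : κ n + 2 * (u : ℕ) = r := hj
          rw [h3 u hj'.symm, hj']
          rcases i with u' | v'
          · rfl
          · rw [crd_inr]
            have h5 : (fun u' : Fin (2 ^ (2 * D n)) =>
                (Finsupp.single r (1 : ℝ)) (κ n + 2 * (u' : ℕ) + 1)) = 0 := by
              funext u'
              rw [Finsupp.single_apply, if_neg (by omega)]
              rfl
            rw [h5, Matrix.mulVec_zero]
            have h6 : pos (κ n) (Sum.inr v' : Fin (2 ^ (2 * D n)) ⊕ Fin (2 ^ (2 * D n))) =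
              κ n + 2 * (v' : ℕ) + 1 := rfl
            rw [h6, Finsupp.single_apply, if_neg (by omega)]
            rfl
        · have hj' : κ n + 2 * (v : ℕ) + 1 = r := hj
          rw [h4 v hj'.symm]
          rcases i with u' | v'
          · rw [crd_inl, Finsupp.finsetSum_apply]
            have h6 : pos (κ n) (Sum.inl u' : Fin (2 ^ (2 * D n)) ⊕ Fin (2 ^ (2 * D n))) =
              κ n + 2 * (u' : ℕ) := rfl
            rw [h6, Finsupp.single_apply, if_neg (by omega)]
            apply Finset.sum_eq_zero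
            intro u _
            rw [Finsupp.single_apply, if_neg (by omega)]
          · rw [crd_inr]
            have h5 : (fun u' : Fin (2 ^ (2 * D n)) =>
                (∑ u : Fin (2 ^ (2 * D n)), Finsupp.single (κ n + 2 * (u : ℕ) + 1) (U n v u))
                  (κ n + 2 * (u' : ℕ) + 1)) =
                fun u' => U n v u' := by
              funext u'
              rw [Finsupp.finsetSum_apply, Finset.sum_eq_single u']
              · rw [Finsupp.single_eq_same]
              · intro u _ hu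
                rw [Finsupp.single_apply, if_neg]
                intro he
                exact hu (Fin.ext (by omega))
              · intro hc; exact absurd (Finset.mem_univ _) hc
            rw [h5]
            have h6 : (U n).mulVec (fun u' => U n v u') v' = (U n * (U n).transpose) v' v := rfl
            rw [h6, hUU n]
            have h7 : pos (κ n) (Sum.inr v' : Fin (2 ^ (2 * D n)) ⊕ Fin (2 ^ (2 * D n))) =
              κ n + 2 * (v' : ℕ) + 1 := rfl
            rw [h7, Finsupp.single_apply, Matrix.one_apply]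
            by_cases hv : v' = v
            · rw [if_pos hv, if_pos (by rw [hv]; exact hj'.symm)]
            · rw [if_neg hv, if_neg]
              intro he
              exact hv (Fin.ext (by omega))
      · -- `r` is outside of the zone
        obtain ⟨n0, h1, h2⟩ := exists_zone hm h0 r
        have hz : ∀ j, κ n ≤ j → j < κ (n + 1) → h r j = 0 := by
          intro j h3 h4
          by_contra hne
          obtain ⟨h5, h6⟩ := hsup n0 r h1 h2 j (Finsupp.mem_support_iff.mpr hne)
          obtain rfl := zone_unique hm h3 h4 h5 h6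
          exact hr ⟨h1, h2⟩
        have hz' : ∀ i : Fin (2 ^ (2 * D n)) ⊕ Fin (2 ^ (2 * D n)), h r (pos (κ n) i) = 0 := by
          intro i
          obtain ⟨h3, h4⟩ := pos_mem (κ n) i
          exact hz _ h3 (by rw [hκ n]; exact h4)
        have h5 : (Finsupp.single r (1 : ℝ)) (pos (κ n) i) = 0 := by
          rw [Finsupp.single_apply, if_neg]
          rintro rfl
          obtain ⟨h3, h4⟩ := pos_mem (κ n) i
          exact hr ⟨h3, by rw [hκ n]; exact h4⟩
        rw [h5]
        rcases i with u | v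
        · exact hz' (Sum.inl u)
        · rw [crd_inr]
          have h6 : (fun u : Fin (2 ^ (2 * D n)) => h r (κ n + 2 * (u : ℕ) + 1)) = 0 := by
            funext u
            exact hz' (Sum.inr u)
          rw [h6, Matrix.mulVec_zero]
          rfl
    have hcT : ∀ n (T : ℕ →₀ ℝ), crd (κ n) (U n) (lc h T) = fun i => T (pos (κ n) i) := by
      intro n T
      induction T using Finsupp.induction_linear with
      | zero => rw [map_zero, map_zero]; rfl
      | add T T' hT hT' => rw [map_add, map_add, hT, hT']; rfl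
      | single r c =>
        rw [lc, Finsupp.linearCombination_single, map_smul]
        funext i
        rw [Pi.smul_apply, hcr, Finsupp.single_apply, Finsupp.single_apply]
        split_ifs <;> simp
    refine ⟨h, hsup, ?_, ?_⟩
    · intro n T
      rw [zn_eq, hcT]
      unfold lq
      congr 1
      apply Finset.sum_bij (fun i _ => pos (κ n) i)
      · intro i _
        rw [Finset.mem_Ico, hκ n]
        exact pos_mem (κ n) i
      · intro i _ j _ hij
        exact pos_inj _ hij
      · intro r hr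
        rw [Finset.mem_Ico, hκ n] at hr
        obtain ⟨i, hi⟩ := pos_surj (κ n) (K := 2 ^ (2 * D n)) r hr.1 hr.2
        exact ⟨i, Finset.mem_univ _, hi⟩
      · intro i _
        rfl
    · intro i
      obtain ⟨n, h1, h2⟩ := exists_zone hm h0 i
      obtain ⟨j, hj⟩ := pos_surj (κ n) (K := 2 ^ (2 * D n)) i h1 (by rw [← hκ n]; exact h2)
      rcases j with u | u
      · have hj' : κ n + 2 * (u : ℕ) = i := hj
        refine ⟨Finsupp.single i 1, ?_⟩
        rw [lc, Finsupp.linearCombination_single, one_smul, (hh i n h1 h2).1 u hj'.symm, hj']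
      · have hj' : κ n + 2 * (u : ℕ) + 1 = i := hj
        refine ⟨∑ v : Fin (2 ^ (2 * D n)), Finsupp.single (κ n + 2 * (v : ℕ) + 1) (U n v u), ?_⟩
        rw [map_sum]
        have e1 : ∀ v : Fin (2 ^ (2 * D n)), lc h (Finsupp.single (κ n + 2 * (v : ℕ) + 1) (U n v u)) =
            ∑ u' : Fin (2 ^ (2 * D n)),
              Finsupp.single (κ n + 2 * (u' : ℕ) + 1) (U n v u * U n v u') := by
          intro v
          rw [lc, Finsupp.linearCombination_single]
          obtain ⟨h3, h4⟩ := pos_mem (κ n) (Sum.inr v : Fin (2 ^ (2 * D n)) ⊕ Fin (2 ^ (2 * D n)))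
          rw [(hh (κ n + 2 * (v : ℕ) + 1) n h3 (by rw [hκ n]; exact h4)).2 v rfl, Finset.smul_sum]
          apply Finset.sum_congr rfl
          intro u' _
          rw [Finsupp.smul_single, smul_eq_mul]
        rw [Finset.sum_congr rfl (fun v _ => e1 v), Finset.sum_comm]
        have e2 : ∀ u' : Fin (2 ^ (2 * D n)), ∑ v, Finsupp.single (κ n + 2 * (u' : ℕ) + 1)
            (U n v u * U n v u') = Finsupp.single (κ n + 2 * (u' : ℕ) + 1)
              (((U n).transpose * U n) u u') := by
          intro u'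
          rw [← Finsupp.single_finsetSum]
          rfl
        rw [Finset.sum_congr rfl (fun u' _ => e2 u'), hU n, Finset.sum_eq_single u]
        · rw [Matrix.one_apply_eq, hj']
        · intro u' _ hu'
          rw [Matrix.one_apply_ne (Ne.symm hu'), Finsupp.single_zero]
        · intro hc; exact absurd (Finset.mem_univ _) hc
  · intro n t
    rw [zn_eq]
    set X : ℕ →₀ ℝ := ∑ u : Fin (2 ^ (2 * D n)), t u • (Finsupp.single (κ n + 2 * (u : ℕ)) (1 : ℝ) +
        Finsupp.single (κ n + 2 * (u : ℕ) + 1) 1) with hX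
    have e1 : ∀ u' : Fin (2 ^ (2 * D n)), X (κ n + 2 * (u' : ℕ)) = t u' := by
      intro u'
      rw [hX, Finsupp.finsetSum_apply, Finset.sum_eq_single u']
      · rw [Finsupp.smul_apply, Finsupp.add_apply, Finsupp.single_eq_same,
          Finsupp.single_apply, if_neg (by omega), add_zero, smul_eq_mul, mul_one]
      · intro u _ hu
        have hne : (u : ℕ) ≠ u' := fun h => hu (Fin.ext h)
        rw [Finsupp.smul_apply, Finsupp.add_apply, Finsupp.single_apply,
          Finsupp.single_apply, if_neg (by omega), if_neg (by omega), add_zero, smul_zero]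
      · intro hc; exact absurd (Finset.mem_univ _) hc
    have e2 : ∀ u' : Fin (2 ^ (2 * D n)), X (κ n + 2 * (u' : ℕ) + 1) = t u' := by
      intro u'
      rw [hX, Finsupp.finsetSum_apply, Finset.sum_eq_single u']
      · rw [Finsupp.smul_apply, Finsupp.add_apply, Finsupp.single_eq_same,
          Finsupp.single_apply, if_neg (by omega), zero_add, smul_eq_mul, mul_one]
      · intro u _ hu
        have hne : (u : ℕ) ≠ u' := fun h => hu (Fin.ext h)
        rw [Finsupp.smul_apply, Finsupp.add_apply, Finsupp.single_apply,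
          Finsupp.single_apply, if_neg (by omega), if_neg (by omega), add_zero, smul_zero]
      · intro hc; exact absurd (Finset.mem_univ _) hc
    have h1 : crd (κ n) (U n) X = Sum.elim t ((U n).mulVec t) := by
      funext i
      rcases i with u | v
      · rw [crd_inl, e1]; rfl
      · rw [crd_inr]
        have e3 : (fun u' : Fin (2 ^ (2 * D n)) => X (κ n + 2 * (u' : ℕ) + 1)) = t := by
          funext u'
          exact e2 u'
        rw [e3]
        rfl
    rw [h1]
    unfold lq nA
    rw [Fintype.sum_sum_type]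
    rfl

end Run7.h651.G
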