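import Mathlib
import Pool.Agent.Run7.h157.G.Iface

/-!
The `l_q`-norm on `ι → ℝ`.
-/

set_option autoImplicit false

noncomputable section

namespace Run7.h651.G

open Run7.h157 Run7.h157.G
open scoped ENNReal NNReal

section

variable {ι : Type*} [Fintype ι]

theorem lq_nonneg (q : ℝ) (v : ι → ℝ) : 0 ≤ lq q v := by
  unfold lq; positivity

theorem lq_add_le {q : ℝ} (hq : 1 ≤ q) (v w : ι → ℝ) : lq q (v + w) ≤ lq q v + lq q w :=
  Real.Lp_add_le Finset.univ v w hq

theorem lq_smul {q : ℝ} (hq : 0 < q) (c : ℝ) (v : ι → ℝ) : lq q (c • v) = |c| * lq q v := by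
  unfold lq
  have h1 : ∀ i, |(c • v) i| ^ q = |c| ^ q * |v i| ^ q := by
    intro i
    rw [Pi.smul_apply, smul_eq_mul, abs_mul, Real.mul_rpow (abs_nonneg _) (abs_nonneg _)]
  simp only [h1]
  rw [← Finset.mul_sum, Real.mul_rpow (by positivity) (by positivity), ← Real.rpow_mul
    (abs_nonneg _), mul_one_div_cancel hq.ne', Real.rpow_one]

theorem lq_zero {q : ℝ} (hq : 0 < q) : lq q (0 : ι → ℝ) = 0 := by
  have := lq_smul hq 0 (0 : ι → ℝ)
  rw [zero_smul, abs_zero, zero_mul] at this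
  exact this

theorem lq_rpow {q : ℝ} (hq : 0 < q) (v : ι → ℝ) : lq q v ^ q = ∑ i, |v i| ^ q := by
  unfold lq
  rw [← Real.rpow_mul (by positivity), one_div_mul_cancel hq.ne', Real.rpow_one]

theorem lq_mono {q : ℝ} (hq : 0 < q) {v w : ι → ℝ} (h : ∀ i, |v i| ≤ |w i|) :
    lq q v ≤ lq q w := by
  unfold lq
  apply Real.rpow_le_rpow (by positivity) _ (by positivity)
  apply Finset.sum_le_sum
  intro i _
  exact Real.rpow_le_rpow (abs_nonneg _) (h i) hq.le

theorem eq_zero_of_lq {q : ℝ} (hq : 0 < q) {v : ι → ℝ} (h : lq q v = 0) : v = 0 := by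
  have h1 := lq_rpow hq v
  rw [h, Real.zero_rpow hq.ne'] at h1
  have h2 := (Finset.sum_eq_zero_iff_of_nonneg (fun i _ => by positivity)).mp h1.symm
  funext i
  have h3 := h2 i (Finset.mem_univ i)
  have h4 := (Real.rpow_eq_zero (abs_nonneg _) hq.ne').mp h3
  simpa using h4

theorem lq_sum_le {q : ℝ} (hq : 1 ≤ q) {κ : Type*} (s : Finset κ) (f : κ → ι → ℝ) :
    lq q (∑ j ∈ s, f j) ≤ ∑ j ∈ s, lq q (f j) := by
  classical
  induction s using Finset.induction_on with
  | empty => rw [Finset.sum_empty, Finset.sum_empty, lq_zero (by linarith)]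
  | insert a s ha ih =>
    rw [Finset.sum_insert ha, Finset.sum_insert ha]
    exact (lq_add_le hq _ _).trans (by linarith)

end

/-- the coordinates of a vector in the zone -/
def crd (k0 : ℕ) {K : ℕ} (U : Matrix (Fin K) (Fin K) ℝ) :
    (ℕ →₀ ℝ) →ₗ[ℝ] (Fin K ⊕ Fin K → ℝ) where
  toFun a := Sum.elim (fun u => a (k0 + 2 * u)) (fun v => ∑ u : Fin K, U v u * a (k0 + 2 * u + 1))
  map_add' a b := by
    funext i
    rcases i with u | v
    · simp
    · simp [mul_add, Finset.sum_add_distrib]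
  map_smul' c a := by
    funext i
    rcases i with u | v
    · simp
    · simp only [Sum.elim_inr, Finsupp.smul_apply, smul_eq_mul, RingHom.id_apply, Pi.smul_apply,
        Finset.mul_sum]
      apply Finset.sum_congr rfl
      intro u _
      ring

theorem zn_eq (q : ℝ) (k0 : ℕ) {K : ℕ} (U : Matrix (Fin K) (Fin K) ℝ) (a : ℕ →₀ ℝ) :
    zn q k0 U a = lq q (crd k0 U a) := by
  unfold zn lq
  rw [Fintype.sum_sum_type]
  rfl

end Run7.h651.G
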