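import Pool.Agent.Run7.h651.G.Lq

/-!
Piece PAR.
-/

set_option autoImplicit false

noncomputable section

namespace Run7.h651.G

open Run7.h157 Run7.h157.G
open Filter Topology
open scoped ENNReal NNReal

/-- the exponent `α = 1 - 1/p` -/
def al (D : ℕ) : ℝ := (Real.logb 2 (2 * D + 1))⁻¹

theorem logb_gt (D : ℕ) (hD : 1 ≤ D) : 1 < Real.logb 2 (2 * D + 1) := by
  have h1 : (1 : ℝ) ≤ D := by exact_mod_cast hD
  rw [Real.lt_logb_iff_rpow_lt (by norm_num) (by positivity), Real.rpow_one]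
  linarith

theorem al_pos (D : ℕ) (hD : 1 ≤ D) : 0 < al D := by
  unfold al
  have := logb_gt D hD
  positivity

theorem al_lt_one (D : ℕ) (hD : 1 ≤ D) : al D < 1 := by
  unfold al
  have := logb_gt D hD
  exact inv_lt_one_of_one_lt₀ this

theorem al_rpow (D : ℕ) (hD : 1 ≤ D) : (2 * (D : ℝ) + 1) ^ (al D) = 2 := by
  have h0 := logb_gt D hD
  have h1 : (2 * (D : ℝ) + 1) = 2 ^ (Real.logb 2 (2 * D + 1)) :=
    (Real.rpow_logb (by norm_num) (by norm_num) (by positivity)).symm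
  conv_lhs => rw [h1]
  rw [← Real.rpow_mul (by norm_num)]
  unfold al
  rw [mul_inv_cancel₀ (by linarith), Real.rpow_one]

theorem tendsto_cast : Tendsto (fun D : ℕ => (2 * (D : ℝ) + 1)) atTop atTop :=
  tendsto_atTop_add_const_right _ _
    ((tendsto_natCast_atTop_atTop).const_mul_atTop (by norm_num))

theorem al_tendsto : Tendsto al atTop (𝓝 0) := by
  have h1 : Tendsto (fun D : ℕ => Real.logb 2 (2 * D + 1)) atTop atTop :=
    (Real.tendsto_logb_atTop (by norm_num)).comp tendsto_cast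
  exact h1.inv_tendsto_atTop

theorem mul_al_tendsto : Tendsto (fun D : ℕ => (D : ℝ) * al D / 2) atTop atTop := by
  have h1 : Tendsto (fun x : ℝ => Real.log x / x) atTop (𝓝 0) :=
    Real.isLittleO_log_id_atTop.tendsto_div_nhds_zero
  have h2 : Tendsto (fun x : ℝ => Real.log x / x) atTop (𝓝[>] 0) := by
    rw [tendsto_nhdsWithin_iff]
    refine ⟨h1, ?_⟩
    filter_upwards [eventually_gt_atTop (1 : ℝ)] with x hx
    exact div_pos (Real.log_pos hx) (by linarith)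
  have h3 : Tendsto (fun x : ℝ => (Real.log x / x)⁻¹) atTop atTop := h2.inv_tendsto_nhdsGT_zero
  have h4 : Tendsto (fun D : ℕ => (Real.log (2 * D + 1) / (2 * D + 1))⁻¹) atTop atTop :=
    h3.comp tendsto_cast
  have h5 : Tendsto (fun D : ℕ => (Real.log 2 / 6) * (Real.log (2 * D + 1) / (2 * D + 1))⁻¹)
      atTop atTop := h4.const_mul_atTop (by positivity)
  refine tendsto_atTop_mono' _ ?_ h5
  filter_upwards [eventually_ge_atTop 1] with D hD
  have hD' : (1 : ℝ) ≤ D := by exact_mod_cast hD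
  have hl : 0 < Real.log (2 * (D : ℝ) + 1) := Real.log_pos (by linarith)
  have hl2 : 0 < Real.log 2 := Real.log_pos (by norm_num)
  have h6 : al D = Real.log 2 / Real.log (2 * D + 1) := by
    unfold al
    rw [Real.logb, inv_div]
  rw [h6, inv_div]
  have h7 : Real.log 2 / 6 * ((2 * (D : ℝ) + 1) / Real.log (2 * D + 1)) =
      (Real.log 2 / Real.log (2 * D + 1)) * ((2 * D + 1) / 6) := by ring
  have h8 : (D : ℝ) * (Real.log 2 / Real.log (2 * D + 1)) / 2 =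
      (Real.log 2 / Real.log (2 * D + 1)) * (D / 2) := by ring
  rw [h7, h8]
  apply mul_le_mul_of_nonneg_left _ (by positivity)
  linarith

/-- the parameters of one stage -/
structure PS where
  D : ℕ
  N : ℕ
  k : ℕ
  m : ℕ
  B : ℝ

/-- the conditions on one stage -/
structure Gd (q0 : ℕ → ℝ) (c : ℝ) (n : ℕ) (s : PS) : Prop where
  D1 : 1 ≤ s.D
  al1 : al s.D ≤ (1 / 2) ^ (n + 1)
  d1 : ((n : ℝ) + 1) * (s.k + 1) ≤ c * (2 : ℝ) ^ ((s.D : ℝ) * al s.D / 2)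
  N1 : 1 ≤ s.N
  h1 : (s.m : ℝ) ≤ (s.N : ℝ) ^ (1 - al s.D)
  m1 : 12 ≤ s.m
  B1 : 2 < s.B
  B2 : s.B ≤ q0 (2 ^ (2 * s.D))

/-- the relation between two stages -/
structure Rl (n : ℕ) (s s' : PS) : Prop where
  k1 : s'.k = s.k + 2 * 2 ^ (2 * s.D)
  al2 : al s'.D < al s.D
  B3 : 2 * (1 - al s'.D)⁻¹ ≤ s.B
  B4 : s'.B ≤ s.B
  m2 : s.m + 1 ≤ s'.m
  h3 : 2 ^ (n + 4) * (s.m : ℝ) * (((s'.k - s.k) * s.N : ℕ) : ℝ) ^ (al s.D) ≤ s'.m
  h2 : ((n : ℝ) + 2) * s'.m ≤ (s'.N : ℝ) ^ (al s.D - al s'.D)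

theorem exists_D (c : ℝ) (hc : 0 < c) (n k : ℕ) (a B : ℝ) (ha : 0 < a) (hB : 2 < B) :
    ∃ D : ℕ, 1 ≤ D ∧ al D ≤ (1 / 2) ^ (n + 1) ∧ al D < a ∧ 2 * (1 - al D)⁻¹ ≤ B ∧
      ((n : ℝ) + 1) * (k + 1) ≤ c * (2 : ℝ) ^ ((D : ℝ) * al D / 2) := by
  have e1 : ∀ᶠ D : ℕ in atTop, 1 ≤ D := eventually_ge_atTop 1
  have e2 : ∀ᶠ D : ℕ in atTop, al D < (1 / 2) ^ (n + 1) :=
    al_tendsto.eventually_lt_const (by positivity)
  have e3 : ∀ᶠ D : ℕ in atTop, al D < a := al_tendsto.eventually_lt_const ha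
  have e4 : ∀ᶠ D : ℕ in atTop, 2 * (1 - al D)⁻¹ < B := by
    have h1 : Tendsto (fun D : ℕ => 2 * (1 - al D)⁻¹) atTop (𝓝 (2 * (1 - 0)⁻¹)) :=
      ((tendsto_const_nhds.sub al_tendsto).inv₀ (by norm_num)).const_mul 2
    exact h1.eventually_lt_const (by norm_num; exact hB)
  have e5 : ∀ᶠ D : ℕ in atTop, ((n : ℝ) + 1) * (k + 1) ≤ c * (2 : ℝ) ^ ((D : ℝ) * al D / 2) := by
    have h1 : Tendsto (fun D : ℕ => c * (2 : ℝ) ^ ((D : ℝ) * al D / 2)) atTop atTop := by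
      have h2 : Tendsto (fun x : ℝ => (2 : ℝ) ^ x) atTop atTop :=
        tendsto_rpow_atTop_of_base_gt_one 2 (by norm_num)
      exact (h2.comp mul_al_tendsto).const_mul_atTop hc
    exact h1.eventually_ge_atTop _
  obtain ⟨D, ⟨⟨⟨h1, h2⟩, h3⟩, h4⟩, h5⟩ := ((((e1.and e2).and e3).and e4).and e5).exists
  exact ⟨D, h1, h2.le, h3, h4.le, h5⟩

theorem exists_N (x y a b : ℝ) (ha : 0 < a) (hb : 0 < b) :
    ∃ N : ℕ, 1 ≤ N ∧ x ≤ (N : ℝ) ^ a ∧ y ≤ (N : ℝ) ^ b := by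
  have e1 : ∀ᶠ N : ℕ in atTop, 1 ≤ N := eventually_ge_atTop 1
  have e2 : ∀ᶠ N : ℕ in atTop, x ≤ (N : ℝ) ^ a :=
    ((tendsto_rpow_atTop ha).comp tendsto_natCast_atTop_atTop).eventually_ge_atTop x
  have e3 : ∀ᶠ N : ℕ in atTop, y ≤ (N : ℝ) ^ b :=
    ((tendsto_rpow_atTop hb).comp tendsto_natCast_atTop_atTop).eventually_ge_atTop y
  obtain ⟨N, ⟨h1, h2⟩, h3⟩ := ((e1.and e2).and e3).exists
  exact ⟨N, h1, h2, h3⟩

theorem exists_zero (q0 : ℕ → ℝ) (hq0 : ∀ k, 2 < q0 k) (c : ℝ) (hc : 0 < c) :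
    ∃ s : PS, Gd q0 c 0 s ∧ s.k = 0 := by
  obtain ⟨D, h1, h2, h3, h4, h5⟩ := exists_D c hc 0 0 1 3 one_pos (by norm_num)
  obtain ⟨N, h6, h7, _⟩ := exists_N 12 0 (1 - al D) 1 (by have := al_lt_one D h1; linarith) one_pos
  refine ⟨⟨D, N, 0, 12, q0 (2 ^ (2 * D))⟩, ?_, rfl⟩
  exact { D1 := h1, al1 := h2, d1 := by simpa using h5, N1 := h6, h1 := by exact_mod_cast h7,
          m1 := le_rfl, B1 := hq0 _, B2 := le_rfl }

theorem exists_succ (q0 : ℕ → ℝ) (hq0 : ∀ k, 2 < q0 k) (c : ℝ) (hc : 0 < c) (n : ℕ) (s : PS)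
    (hs : Gd q0 c n s) : ∃ s' : PS, Gd q0 c (n + 1) s' ∧ Rl n s s' := by
  set k' := s.k + 2 * 2 ^ (2 * s.D) with hk'
  obtain ⟨D, h1, h2, h3, h4, h5⟩ := exists_D c hc (n + 1) k' (al s.D) s.B (al_pos _ hs.D1) hs.B1
  obtain ⟨m', hm'⟩ := exists_nat_ge
    (2 ^ (n + 4) * (s.m : ℝ) * (((k' - s.k) * s.N : ℕ) : ℝ) ^ (al s.D))
  obtain ⟨N, h6, h7, h8⟩ := exists_N (((m' + s.m + 1 : ℕ) : ℝ))
    (((n : ℝ) + 2) * ((m' + s.m + 1 : ℕ) : ℝ)) (1 - al D) (al s.D - al D)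
    (by have := al_lt_one D h1; linarith) (by linarith)
  refine ⟨⟨D, N, k', m' + s.m + 1, min s.B (q0 (2 ^ (2 * D)))⟩, ?_, ?_⟩
  · exact { D1 := h1, al1 := h2, d1 := h5, N1 := h6, h1 := h7,
            m1 := by
              have := hs.m1
              show 12 ≤ m' + s.m + 1
              omega
            B1 := lt_min hs.B1 (hq0 _), B2 := min_le_right _ _ }
  · exact { k1 := rfl, al2 := h3, B3 := h4, B4 := min_le_left _ _,
            m2 := by
              show s.m + 1 ≤ m' + s.m + 1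
              omega
            h3 := by
              refine hm'.trans ?_
              show (m' : ℝ) ≤ ((m' + s.m + 1 : ℕ) : ℝ)
              exact_mod_cast (by omega : m' ≤ m' + s.m + 1)
            h2 := h8 }

theorem exists_seq (q0 : ℕ → ℝ) (hq0 : ∀ k, 2 < q0 k) (c : ℝ) (hc : 0 < c) :
    ∃ s : ℕ → PS, (s 0).k = 0 ∧ (∀ n, Gd q0 c n (s n)) ∧ ∀ n, Rl n (s n) (s (n + 1)) := by
  choose F hF1 hF2 using (fun n s hs => exists_succ q0 hq0 c hc n s hs)
  obtain ⟨s0, h0, hk0⟩ := exists_zero q0 hq0 c hc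
  let S : (n : ℕ) → {s : PS // Gd q0 c n s} := fun n =>
    Nat.rec ⟨s0, h0⟩ (fun n s => ⟨F n s.1 s.2, hF1 n s.1 s.2⟩) n
  exact ⟨fun n => (S n).1, hk0, fun n => (S n).2, fun n => hF2 n (S n).1 (S n).2⟩

/-- transfer of an inequality to extended nonnegative reals -/
theorem enn_le (a N : ℕ) (r x : ℝ) (hr : 0 ≤ r) (hx : 0 ≤ x)
    (h : r * a ≤ (N : ℝ) ^ x) : ENNReal.ofReal r * (a : ℝ≥0∞) ≤ (N : ℝ≥0∞) ^ x := by
  have h1 : (N : ℝ≥0∞) ^ x = ENNReal.ofReal ((N : ℝ) ^ x) := by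
    rw [← ENNReal.ofReal_rpow_of_nonneg (Nat.cast_nonneg _) hx, ENNReal.ofReal_natCast]
  have h2 : ENNReal.ofReal r * (a : ℝ≥0∞) = ENNReal.ofReal (r * a) := by
    rw [ENNReal.ofReal_mul hr, ENNReal.ofReal_natCast]
  rw [h1, h2]
  exact ENNReal.ofReal_le_ofReal h

theorem st_PAR : St_PAR := by
  intro q0 hq0 c hc
  obtain ⟨s, hs0, hG, hR⟩ := exists_seq q0 hq0 c hc
  have hap : ∀ n, 0 < al (s n).D := fun n => al_pos _ (hG n).D1
  have ha1 : ∀ n, al (s n).D < 1 := fun n => al_lt_one _ (hG n).D1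
  have hpp : ∀ n, 1 - 1 / (1 - al (s n).D)⁻¹ = al (s n).D := by
    intro n
    rw [one_div, inv_inv]; ring
  have hpi : ∀ n, 1 / (1 - al (s n).D)⁻¹ = 1 - al (s n).D := by
    intro n
    rw [one_div, inv_inv]
  have hanti : Antitone (fun n => al (s n).D) := antitone_nat_of_succ_le (fun n => (hR n).al2.le)
  have hBanti : Antitone (fun n => (s n).B) := antitone_nat_of_succ_le (fun n => (hR n).B4)
  have hmono : StrictMono (fun n => (s n).m) := strictMono_nat_of_lt_succ (fun n => (hR n).m2)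
  refine ⟨fun n => (s n).D, fun n => (s n).N, fun n => (s n).k, fun n => (1 - al (s n).D)⁻¹,
    fun n => ((s n).m : ℝ≥0∞), hs0, fun n => (hR n).k1, ?_, ?_, ?_, ?_, ?_, ?_⟩
  · refine { one_lt := ?_, anti := ?_, mono := ?_, twelve := ?_, ne_top := ?_, tend_m := ?_,
             sum := ?_, tend_p := ?_ }
    · intro j
      have h1 := ha1 j
      have h2 := hap j
      exact (one_lt_inv₀ (by linarith)).mpr (by linarith)
    · intro i j hij
      have h1 := ha1 i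
      have h2 := ha1 j
      have h3 : al (s j).D ≤ al (s i).D := hanti hij
      show (1 - al (s j).D)⁻¹ ≤ (1 - al (s i).D)⁻¹
      exact inv_anti₀ (by linarith) (by linarith)
    · intro i j hij
      show ((s i).m : ℝ≥0∞) ≤ ((s j).m : ℝ≥0∞)
      exact_mod_cast hmono.monotone hij
    · show (12 : ℝ≥0∞) ≤ ((s 0).m : ℝ≥0∞)
      exact_mod_cast (hG 0).m1
    · intro j
      exact ENNReal.natCast_ne_top _
    · have h1 : Tendsto (fun n => (s n).m) atTop atTop := hmono.tendsto_atTop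
      exact ENNReal.tendsto_nat_nhds_top.comp h1
    · intro n
      have h1 : ∀ j ∈ Finset.range n, 1 - 1 / (1 - al (s j).D)⁻¹ ≤ (1 / 2) * (1 / 2 : ℝ) ^ j := by
        intro j _
        rw [hpp j]
        have := (hG j).al1
        rw [pow_succ] at this
        linarith
      refine (Finset.sum_le_sum h1).trans ?_
      rw [← Finset.mul_sum, geom_sum_eq (by norm_num)]
      have h2 : (0 : ℝ) ≤ (1 / 2) ^ n := by positivity
      have h3 : (1 / 2 : ℝ) * (((1 / 2) ^ n - 1) / (1 / 2 - 1)) = 1 - (1 / 2) ^ n := by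
        norm_num
        ring
      rw [h3]
      linarith
    · have h1 : Tendsto (fun n => al (s n).D) atTop (𝓝 0) := by
        refine squeeze_zero (fun n => (hap n).le) (fun n => (hG n).al1) ?_
        exact (tendsto_pow_atTop_nhds_zero_of_lt_one (by norm_num) (by norm_num)).comp
          (tendsto_add_atTop_nat 1)
      have h2 : Tendsto (fun n => (1 - al (s n).D)⁻¹) atTop (𝓝 ((1 - 0)⁻¹)) :=
        (tendsto_const_nhds.sub h1).inv₀ (by norm_num)
      simpa using h2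
  · refine { pos := fun n => (hG n).N1, h1 := ?_, h2 := ?_, h3 := ?_ }
    · intro n
      show ((s n).m : ℝ≥0∞) ≤ ((s n).N : ℝ≥0∞) ^ (1 / (1 - al (s n).D)⁻¹)
      rw [hpi n]
      have h1 := enn_le (s n).m (s n).N 1 (1 - al (s n).D) (by norm_num)
        (by have := ha1 n; linarith) (by rw [one_mul]; exact (hG n).h1)
      rwa [ENNReal.ofReal_one, one_mul] at h1
    · intro n l hln
      show ((n : ℝ≥0∞) + 1) * ((s n).m : ℝ≥0∞) ≤
        ((s n).N : ℝ≥0∞) ^ (1 / (1 - al (s n).D)⁻¹ - 1 / (1 - al (s l).D)⁻¹)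
      rw [hpi n, hpi l]
      obtain ⟨n', rfl⟩ : ∃ n', n = n' + 1 := ⟨n - 1, by omega⟩
      have h1 : al (s n').D ≤ al (s l).D := hanti (show l ≤ n' by omega)
      have h2 := (hR n').al2
      have h3 := (hR n').h2
      have hN : (1 : ℝ) ≤ ((s (n' + 1)).N : ℝ) := by exact_mod_cast (hG (n' + 1)).N1
      have h4 : ((n' : ℝ) + 2) * ((s (n' + 1)).m : ℝ) ≤
          ((s (n' + 1)).N : ℝ) ^ (1 - al (s (n' + 1)).D - (1 - al (s l).D)) :=
        h3.trans (Real.rpow_le_rpow_of_exponent_le hN (by linarith))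
      have h5 := enn_le (s (n' + 1)).m (s (n' + 1)).N ((n' : ℝ) + 2) _ (by positivity)
        (by linarith) h4
      have h6 : ENNReal.ofReal ((n' : ℝ) + 2) = ((n' + 1 : ℕ) : ℝ≥0∞) + 1 := by
        rw [← ENNReal.ofReal_natCast, ← ENNReal.ofReal_one,
          ← ENNReal.ofReal_add (by positivity) (by norm_num)]
        congr 1
        push_cast
        ring
      rwa [h6] at h5
    · intro n
      show 2 ^ (n + 4) * ((s n).m : ℝ≥0∞) *
        ((((s (n + 1)).k - (s n).k) * (s n).N : ℕ) : ℝ≥0∞) ^ (1 - 1 / (1 - al (s n).D)⁻¹) ≤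
          ((s (n + 1)).m : ℝ≥0∞)
      rw [hpp n]
      have h1 := (hR n).h3
      have h2 := ENNReal.ofReal_le_ofReal h1
      rw [ENNReal.ofReal_natCast, ENNReal.ofReal_mul (by positivity),
        ENNReal.ofReal_mul (by positivity), ENNReal.ofReal_natCast,
        ← ENNReal.ofReal_rpow_of_nonneg (Nat.cast_nonneg _) (hap n).le, ENNReal.ofReal_natCast,
        ENNReal.ofReal_pow (by norm_num)] at h2
      simpa using h2
  · show (1 - al (s 0).D)⁻¹ ≤ 2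
    have h1 := (hG 0).al1
    rw [zero_add, pow_one] at h1
    rw [inv_le_comm₀ (by linarith) (by norm_num)]
    linarith
  · intro n l hnl
    obtain ⟨l', rfl⟩ : ∃ l', l = l' + 1 := ⟨l - 1, by omega⟩
    have h1 := (hR l').B3
    have h2 : (s l').B ≤ (s n).B := hBanti (show n ≤ l' by omega)
    exact h1.trans (h2.trans (hG n).B2)
  · intro n
    show (2 * ((s n).D : ℝ) + 1) ^ (1 - 1 / (1 - al (s n).D)⁻¹) ≤ 2
    rw [hpp n, al_rpow _ (hG n).D1]
  · intro n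
    show ((n : ℝ) + 1) * ((s n).k + 1) ≤
      c * (2 : ℝ) ^ (((s n).D : ℝ) * (1 - 1 / (1 - al (s n).D)⁻¹) / 2)
    rw [hpp n]
    exact (hG n).d1

end Run7.h651.G
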